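import Mathlib

open Filter

namespace Pool.Agent.Results.MP_6ac782_lc.SymTrans

def uadd (u v : Ultrafilter ℤ) : Ultrafilter ℤ := u.bind fun x => v.map (x + ·)

def uneg (u : Ultrafilter ℤ) : Ultrafilter ℤ := u.map Neg.neg

def Up (A : Set ℤ) : Prop := ∀ a ∈ A, ∀ b, a ∣ b → b ∈ A

def TDvd (u v : Ultrafilter ℤ) : Prop := ∀ A ∈ u, Up A → A ∈ v

def Cong (w u v : Ultrafilter ℤ) : Prop := TDvd w (uadd u (uneg v))

lemma mem_sub (u v : Ultrafilter ℤ) (A : Set ℤ) : A ∈ uadd u (uneg v) ↔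
    ∀ᶠ x in (u : Filter ℤ), ∀ᶠ y in (v : Filter ℤ), x - y ∈ A := by
  simp only [sub_eq_add_neg]; rfl

lemma gaps (Φ : ℕ → ℕ) : ∃ E : Set ℕ, (∀ n, ∃ M, n ≤ M ∧ ∀ p ∈ E, p ≤ M ∨ Φ M < p) ∧
    ∀ n, ∃ M, n ≤ M ∧ ∀ p ∈ Eᶜ, p ≤ M ∨ Φ M < p := by
  let M : ℕ → ℕ := fun i => (fun m => max (Φ m) (m + 1))^[i] 0
  have hM : ∀ i, M (i + 1) = max (Φ (M i)) (M i + 1) := fun i => Function.iterate_succ_apply' _ _ _
  have hs : StrictMono M := strictMono_nat_of_lt_succ fun i => by rw [hM]; omega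
  refine ⟨{p | ∃ i, M (2 * i) < p ∧ p ≤ M (2 * i + 1)}, fun n => ⟨M (2 * n + 1),
    le_trans (by omega) hs.le_apply, ?_⟩, fun n => ⟨M (2 * n), le_trans (by omega) hs.le_apply, ?_⟩⟩
  · rintro p ⟨i, h1, h2⟩
    by_contra hc
    have h3 := hM (2 * n + 1)
    have a := hs.lt_iff_lt.1 (show M (2 * i) < M (2 * n + 1 + 1) by omega)
    have b := hs.lt_iff_lt.1 (show M (2 * n + 1) < M (2 * i + 1) by omega)
    omega
  · intro p hp
    by_contra hc
    have h3 := hM (2 * n)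
    exact hp ⟨n, by omega, by omega⟩

lemma avoid {p e : ℕ} (hp : p.Prime) (b : ℤ) (hb : ¬ (p : ℤ) ^ e ∣ b) (y : ℕ → ℤ)
    (hy : ∀ k, p ≤ k + 2 → (p : ℤ) ^ e ∣ y k) : ∃ z : ℕ, ∀ k, ¬ (p : ℤ) ^ e ∣ b * z - y k := by
  have hp' : Prime (p : ℤ) := Nat.prime_iff_prime_int.1 hp
  have key : ∀ t : ℤ, (p : ℤ) ^ e ∣ b * t → (p : ℤ) ∣ t := fun t ht => by
    by_contra hc
    exact hb (hp'.pow_dvd_of_dvd_mul_right e hc ht)
  by_contra hc
  push Not at hc
  choose k hk using hc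
  have h2 := hp.two_le
  obtain ⟨z, hz, z', hz', hne, he⟩ := Finset.exists_ne_map_eq_of_card_lt_of_maps_to
    (s := Finset.Ico 1 p) (t := Finset.range (p - 2)) (f := k) (by simp; omega) (by
      intro z hz
      simp only [Finset.coe_Ico, Set.mem_Ico, Finset.coe_range, Set.mem_Iio] at hz ⊢
      by_contra hh
      have := key z (by simpa using dvd_add (hk z) (hy (k z) (by omega)))
      have := Nat.le_of_dvd (by omega) (Int.natCast_dvd_natCast.1 this)
      omega)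
  have := key (z - z') (by
    have := dvd_sub (hk z) (hk z')
    rw [he] at this
    rwa [show b * (z - z' : ℤ) = b * z - y (k z') - (b * z' - y (k z')) by ring])
  rw [Finset.mem_Ico] at hz hz'
  have := Int.eq_zero_of_abs_lt_dvd this (abs_lt.2 ⟨by omega, by omega⟩)
  omega

theorem result (w : Ultrafilter ℤ) (hw : w ≠ pure 0)
    (hs : ∀ u v, Cong w u v → Cong w v u) (u v t : Ultrafilter ℤ) :
    Cong w u v → Cong w v t → Cong w u t := by
  classical
  let D : Set ℤ := {n | {m | n ∣ m} ∈ w}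
  by_cases hD : D ∈ w
  · intro h1 h2 A hA hup
    obtain ⟨a, ha, haD⟩ := w.nonempty_of_mem (inter_mem hA hD)
    have up : Up {m | a ∣ m} := fun _ h _ h' => h.trans h'
    have g1 := (mem_sub _ _ _).1 (h1 _ haD up)
    have g2 := (mem_sub _ _ _).1 (h2 _ haD up)
    refine (mem_sub _ _ _).2 (g1.mono fun x hx => ?_)
    obtain ⟨y, hy, hy'⟩ := (hx.and g2).exists
    exact hy'.mono fun z hz => hup a ha _ (by simpa using dvd_add hy hz)
  exfalso
  have h0 : ∀ᶠ a in (w : Filter ℤ), a ≠ 0 := by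
    by_contra hc
    exact hw (Ultrafilter.coe_le_coe.1 (le_pure_iff.2
      ((Ultrafilter.eventually_not.2 hc).mono fun a ha => not_not.1 ha)))
  let G : ℕ → Prop := fun p => p.Prime ∧ ∃ e : ℕ, (p : ℤ) ^ e ∉ D
  have hex : ∀ p, ∃ e : ℕ, G p → (p : ℤ) ^ e ∉ D ∧ ∀ e', (p : ℤ) ^ e' ∉ D → e ≤ e' := by
    intro p
    by_cases h : G p
    · exact ⟨Nat.find h.2, fun _ => ⟨Nat.find_spec h.2, fun e' h' => Nat.find_min' h.2 h'⟩⟩
    · exact ⟨0, fun h' => absurd h' h⟩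
  choose e he using hex
  have hP : ∀ a : ℤ, ∃ p, a ≠ 0 → a ∉ D → G p ∧ (p : ℤ) ^ e p ∣ a := by
    intro a
    by_contra hc
    push Not at hc
    obtain ⟨ha, haD, -⟩ := hc 0
    apply haD
    have : ∀ᶠ m in (w : Filter ℤ), ∀ p ∈ a.natAbs.primeFactors,
        (p : ℤ) ^ (a.natAbs.factorization p) ∣ m := by
      rw [eventually_all_finset]
      intro p hp
      by_contra hh
      have hG : G p := ⟨Nat.prime_of_mem_primeFactors hp, _, hh⟩
      refine (hc p).2.2 hG ((pow_dvd_pow _ ((he p hG).2 _ hh)).trans ?_)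
      rw [← Int.natCast_pow, Int.natCast_dvd]
      exact Nat.ordProj_dvd _ _
    refine mem_of_superset (this.and h0) fun m hm => ?_
    rw [Set.mem_ofPred_eq, ← Int.natAbs_dvd_natAbs,
      ← Nat.factorization_prime_le_iff_dvd (by simpa using ha) (by simpa using hm.2)]
    intro p hp
    by_cases hpa : p ∈ a.natAbs.primeFactors
    · have := hm.1 p hpa
      rw [← Int.natCast_pow, Int.natCast_dvd] at this
      exact (hp.pow_dvd_iff_le_factorization (by simpa using hm.2)).1 this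
    · rw [← Nat.support_factorization, Finsupp.notMem_support_iff] at hpa
      rw [hpa]; exact Nat.zero_le _
  choose P hP using hP
  have hle : ∀ p, G p → ∀ c : ℤ, c ≠ 0 → (p : ℤ) ^ e p ∣ c → p ≤ c.natAbs := by
    intro p hp c hc h
    have : e p ≠ 0 := fun h' => (he p hp).1 (by rw [h']; exact univ_mem' fun m => by simp)
    exact Nat.le_of_dvd (Int.natAbs_pos.2 hc) (Int.natCast_dvd.1 ((dvd_pow_self _ this).trans h))
  let yn : ℕ → ℕ := fun k => (k + 2).factorial * ∏ p ∈ Finset.Ico 1 (k + 3), p ^ e p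
  let y : ℕ → ℤ := fun k => yn k
  have hy0 : ∀ k, y k ≠ 0 := fun k => Int.natCast_ne_zero.2 (mul_ne_zero (Nat.factorial_ne_zero _)
    (Finset.prod_ne_zero_iff.2 fun p hp => pow_ne_zero _ (by rw [Finset.mem_Ico] at hp; omega)))
  have hX : ∀ (j M : ℕ) (b : ℤ), ∃ x, b ∣ x ∧ (b ≠ 0 →
      (∀ k ≤ j, ∀ p ≤ (y k).natAbs, G p → ¬ (p : ℤ) ^ e p ∣ b) →
      ∀ k ≤ j, x - y k ≠ 0 ∧ ∀ p ≤ M, G p → ¬ (p : ℤ) ^ e p ∣ x - y k) := by
    intro j M b
    have : ∀ p, ∃ z : ℕ, G p → ¬ (p : ℤ) ^ e p ∣ b → ∀ k, ¬ (p : ℤ) ^ e p ∣ b * z - y k := by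
      intro p
      by_cases h : G p ∧ ¬ (p : ℤ) ^ e p ∣ b
      · obtain ⟨z, hz⟩ := avoid h.1.1 b h.2 y fun k hk => by
          rw [← Int.natCast_pow, Int.natCast_dvd_natCast]
          exact (Finset.dvd_prod_of_mem (fun p => p ^ e p)
            (Finset.mem_Ico.2 ⟨h.1.1.pos, by omega⟩)).mul_left _
        exact ⟨z, fun _ _ => hz⟩
      · exact ⟨0, fun h1 h2 => absurd ⟨h1, h2⟩ h⟩
    choose z hz using this
    let S := (Finset.range (M + 1)).filter Nat.Prime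
    obtain ⟨c, hc⟩ := Nat.chineseRemainderOfFinset z (fun p => p ^ e p) S
      (fun p hp => pow_ne_zero _ (Finset.mem_filter.1 hp).2.ne_zero) fun p hp q hq hpq =>
        Nat.Coprime.pow _ _ ((Nat.coprime_primes (Finset.mem_filter.1 hp).2
          (Finset.mem_filter.1 hq).2).2 hpq)
    let N := ∏ p ∈ S, p ^ e p
    have hN : 0 < N := Finset.prod_pos fun p hp => pow_pos (Finset.mem_filter.1 hp).2.pos _
    let Y := (Finset.range (j + 1)).sup yn + 1
    refine ⟨b * (c + N * Y : ℕ), dvd_mul_right _ _, fun hb hb' k hk => ⟨fun h => ?_, fun p hp hG h => ?_⟩⟩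
    · have h1 := congrArg Int.natAbs (sub_eq_zero.1 h)
      rw [Int.natAbs_mul, Int.natAbs_natCast, Int.natAbs_natCast] at h1
      have h2 : yn k ≤ (Finset.range (j + 1)).sup yn := Finset.le_sup (Finset.mem_range.2 (by omega))
      have h3 : 0 < b.natAbs := Int.natAbs_pos.2 hb
      have h4 : Y ≤ N * Y := Nat.le_mul_of_pos_left _ hN
      have h5 : c + N * Y ≤ b.natAbs * (c + N * Y) := Nat.le_mul_of_pos_left _ h3
      omega
    · by_cases hpb : (p : ℤ) ^ e p ∣ b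
      · refine hb' k hk p (hle p hG _ (hy0 k) ?_) hG hpb
        simpa using dvd_sub (hpb.mul_right (c + N * Y : ℕ)) h
      · have hpS : p ∈ S := Finset.mem_filter.2 ⟨Finset.mem_range.2 (by omega), hG.1⟩
        have h1 : (p : ℤ) ^ e p ∣ (z p : ℤ) - c := by exact_mod_cast (hc p hpS).dvd
        have h2 : (p : ℤ) ^ e p ∣ (N : ℤ) := by
          exact_mod_cast Finset.dvd_prod_of_mem (fun p => p ^ e p) hpS
        refine hz p hG hpb k ?_
        have h3 := dvd_sub (dvd_add h (h1.mul_left b)) (h2.mul_left (b * Y))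
        rwa [show b * ((c + N * Y : ℕ) : ℤ) - y k + b * ((z p : ℤ) - c) - b * Y * N = b * z p - y k by
          push_cast; ring] at h3
  choose X hX1 hX2 using hX
  let Φ : ℕ → ℕ := fun M => (Finset.range (M + 1)).sup fun j => (Finset.range (M + 1)).sup fun k =>
    (Finset.Icc (-M : ℤ) M).sup fun b => (X j M b - y k).natAbs
  have main : ∀ E : Set ℕ, (∀ n, ∃ M, n ≤ M ∧ ∀ p ∈ E, p ≤ M ∨ Φ M < p) → P ⁻¹' E ∉ w := by
    intro E hE hEw
    choose M hM hM' using hE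
    let U : Ultrafilter ℕ := hyperfilter ℕ
    have hU : ∀ k, ∀ᶠ n in (U : Filter ℕ), k ≤ n := fun k =>
      Nat.hyperfilter_le_atTop (eventually_ge_atTop k)
    let g : ℕ → ℤ → ℤ := fun j b => X j (M (j + b.natAbs)) b
    let u : Ultrafilter ℤ := U.bind fun j => w.map (g j)
    have hu : ∀ Q : ℤ → Prop, (∀ᶠ x in (u : Filter ℤ), Q x) ↔
        ∀ᶠ j in (U : Filter ℕ), ∀ᶠ b in (w : Filter ℤ), Q (g j b) := fun Q => Iff.rfl
    have h1 : Cong w u (U.map y) := fun B hB hup => (mem_sub _ _ _).2 ((hu _).2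
      (Eventually.of_forall fun j => (h0.and hB).mono fun b hb => (hU b.natAbs).mono fun k hk =>
        hup b hb.2 _ (dvd_sub (hX1 _ _ _) (Int.natAbs_dvd.1 (Int.natCast_dvd_natCast.2
          ((Nat.dvd_factorial (Int.natAbs_pos.2 hb.1) (by omega)).mul_right _))))))
    have h2 := (mem_sub _ _ _).1 (hs _ _ h1 {c | ∃ p ∈ E, G p ∧ (p : ℤ) ^ e p ∣ c}
      (mem_of_superset (inter_mem hEw (inter_mem h0 (Ultrafilter.compl_mem_iff_notMem.2 hD)))
        fun a ha => ⟨P a, ha.1, hP a ha.2.1 ha.2.2⟩)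
      fun _ ⟨p, a1, a2, a3⟩ _ h => ⟨p, a1, a2, a3.trans h⟩)
    obtain ⟨k, hk⟩ := Eventually.exists (f := (U : Filter ℕ)) h2
    obtain ⟨j, hj, hj'⟩ := ((hU k).and ((hu _).1 hk)).exists
    have h3 : ∀ᶠ b in (w : Filter ℤ), ∀ k ∈ Set.Iic j, ∀ p ∈ Set.Iic (y k).natAbs,
        G p → ¬ (p : ℤ) ^ e p ∣ b := by
      refine (eventually_all_finite (Set.finite_Iic _)).2 fun k _ =>
        (eventually_all_finite (Set.finite_Iic _)).2 fun p _ => ?_
      by_cases hG : G p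
      · exact mem_of_superset (Ultrafilter.compl_mem_iff_notMem.2 (he p hG).1) fun b hb _ => hb
      · exact Eventually.of_forall fun b h => absurd h hG
    obtain ⟨b, hb0, hb, p, hpE, hG, hp⟩ := (h0.and (h3.and hj')).exists
    obtain ⟨a1, a2⟩ := hX2 j (M (j + b.natAbs)) b hb0 hb k hj
    rw [dvd_sub_comm] at hp
    rcases hM' (j + b.natAbs) p hpE with h | h
    · exact a2 p h hG hp
    · have a3 := hle p hG _ a1 hp
      have a4 := hM (j + b.natAbs)
      have : (X j (M (j + b.natAbs)) b - y k).natAbs ≤ Φ (M (j + b.natAbs)) :=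
        Finset.le_sup_of_le (Finset.mem_range.2 (show j < _ by omega))
          (Finset.le_sup_of_le (Finset.mem_range.2 (show k < _ by omega))
            (Finset.le_sup_of_le (Finset.mem_Icc.2 (show _ ≤ b ∧ _ by omega)) le_rfl))
      omega
  obtain ⟨E, h1, h2⟩ := gaps Φ
  exact main _ h2 (Ultrafilter.compl_mem_iff_notMem.2 (main _ h1))

end Pool.Agent.Results.MP_6ac782_lc.SymTrans
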